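import Pool.Agent.H59.L.T374d34.N483.KM.Stm

/-!
# Fourth moments of Lipschitz functions
-/

set_option autoImplicit false

namespace Pool.Agent.N833.KM

open MeasureTheory Set Filter Topology
open Pool.Agent.R754.KG (E)
open Pool.Agent.R755.KF (PB)
open Pool.Agent.N483.KM

/-- the pointwise bound -/
theorem ptw (r a : ℝ) (hr : 0 < r) (ha : 0 ≤ a) (n : ℕ) (h : a ≤ (9 / 8) ^ (n + 1) * r) :
    a ^ 4 ≤ ((9 / 8) * r) ^ 4 +
      ∑ i ∈ Finset.range n, ((9 / 8) ^ (i + 2) * r) ^ 4 *
        (if (9 / 8) ^ (i + 1) * r ≤ a then (1 : ℝ) else 0) := by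
  induction n with
  | zero =>
    simp only [zero_add, pow_one] at h
    simp only [Finset.range_zero, Finset.sum_empty, add_zero]
    exact pow_le_pow_left₀ ha h 4
  | succ n ih =>
    rw [Finset.sum_range_succ]
    by_cases h1 : a ≤ (9 / 8) ^ (n + 1) * r
    · have := ih h1
      have h2 : 0 ≤ ((9 / 8) ^ (n + 2) * r) ^ 4 *
          (if (9 / 8) ^ (n + 1) * r ≤ a then (1 : ℝ) else 0) := by
        apply mul_nonneg
        · positivity
        · split_ifs <;> norm_num
      linarith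
    · push Not at h1
      rw [if_pos h1.le, mul_one]
      have h2 : a ^ 4 ≤ ((9 / 8) ^ (n + 2) * r) ^ 4 := pow_le_pow_left₀ ha h 4
      have h3 : 0 ≤ ∑ i ∈ Finset.range n, ((9 / 8) ^ (i + 2) * r) ^ 4 *
          (if (9 / 8) ^ (i + 1) * r ≤ a then (1 : ℝ) else 0) := by
        apply Finset.sum_nonneg
        intro i _
        apply mul_nonneg
        · positivity
        · split_ifs <;> norm_num
      have h4 : 0 ≤ ((9 / 8 : ℝ) * r) ^ 4 := by positivity
      linarith

/-- the geometric sum -/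
theorem gsum (n : ℕ) : ∑ i ∈ Finset.range n, ((9 / 8 : ℝ) ^ (i + 2)) ^ 4 * (2 * (1 / 4) ^ i) ≤ 10.4 := by
  have h : ∀ i : ℕ, ((9 / 8 : ℝ) ^ (i + 2)) ^ 4 * (2 * (1 / 4) ^ i) ≤ 5.2 * (1 / 2) ^ i := by
    intro i
    have e : ((9 / 8 : ℝ) ^ (i + 2)) ^ 4 * (2 * (1 / 4) ^ i) =
        (2 * (9 / 8) ^ 8) * ((9 / 8) ^ 4 * (1 / 4)) ^ i := by
      rw [mul_pow, ← pow_mul, ← pow_mul, show (i + 2) * 4 = 8 + 4 * i by ring, pow_add]; ring
    rw [e]
    apply mul_le_mul
    · norm_num
    · apply pow_le_pow_left₀ (by norm_num)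
      norm_num
    · positivity
    · norm_num
  calc ∑ i ∈ Finset.range n, ((9 / 8 : ℝ) ^ (i + 2)) ^ 4 * (2 * (1 / 4) ^ i)
      ≤ ∑ i ∈ Finset.range n, 5.2 * (1 / 2 : ℝ) ^ i := Finset.sum_le_sum fun i _ => h i
    _ = 5.2 * ∑ i ∈ Finset.range n, (1 / 2 : ℝ) ^ i := by rw [Finset.mul_sum]
    _ ≤ 5.2 * 2 := by
        apply mul_le_mul_of_nonneg_left _ (by norm_num)
        exact sum_geometric_two_le n
    _ = 10.4 := by norm_num

/-- a bounded measurable function has an approximate median -/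
theorem med {X : Type*} [MeasurableSpace X] (ν : Measure X) [IsProbabilityMeasure ν] (f : X → ℝ)
    (hf : Measurable f) (K : ℝ) (hK : ∀ᵐ x ∂ν, |f x| ≤ K) :
    ∃ m : ℝ, |m| ≤ K ∧ (∀ ε : ℝ, 0 < ε → ν.real {x | m + ε < f x} ≤ 1 / 2) ∧
      (∀ ε : ℝ, 0 < ε → ν.real {x | f x < m - ε} ≤ 1 / 2) := by
  set S : Set ℝ := {t | 1 / 2 ≤ ν.real {x | f x ≤ t}} with hS
  have hKS : K ∈ S := by
    show 1 / 2 ≤ ν.real {x | f x ≤ K}
    have : ν {x | f x ≤ K} = 1 := by
      rw [← mem_ae_iff_prob_eq_one (measurableSet_le hf measurable_const)]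
      filter_upwards [hK] with x hx
      exact (abs_le.mp hx).2
    rw [Measure.real, this]; norm_num
  have hlow : ∀ t ∈ S, -K ≤ t := by
    intro t ht
    by_contra hc
    push Not at hc
    have : ν {x | f x ≤ t} = 0 := by
      have : ∀ᵐ x ∂ν, ¬ f x ≤ t := by
        filter_upwards [hK] with x hx
        have := (abs_le.mp hx).1
        linarith
      simpa [ae_iff] using this
    have h2 : (1 : ℝ) / 2 ≤ ν.real {x | f x ≤ t} := ht
    rw [Measure.real, this] at h2
    norm_num at h2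
  have hbdd : BddBelow S := ⟨-K, fun t ht => hlow t ht⟩
  refine ⟨sInf S, ?_, ?_, ?_⟩
  · rw [abs_le]
    exact ⟨le_csInf ⟨K, hKS⟩ hlow, csInf_le hbdd hKS⟩
  · intro ε hε
    obtain ⟨s, hs, hs1⟩ := exists_lt_of_csInf_lt ⟨K, hKS⟩ (show sInf S < sInf S + ε by linarith)
    have h1 : (1 : ℝ) / 2 ≤ ν.real {x | f x ≤ s} := hs
    have h2 : {x | sInf S + ε < f x} ⊆ {x | f x ≤ s}ᶜ := by
      intro x hx
      simp only [mem_ofPred_eq, mem_compl_iff, not_le] at hx ⊢
      linarith
    have h3 : ν.real {x | sInf S + ε < f x} ≤ ν.real {x | f x ≤ s}ᶜ := measureReal_mono h2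
    rw [probReal_compl_eq_one_sub (measurableSet_le hf measurable_const)] at h3
    linarith
  · intro ε hε
    have h1 : sInf S - ε ∉ S := by
      intro hc
      have := csInf_le hbdd hc
      linarith
    have h2 : ν.real {x | f x ≤ sInf S - ε} < 1 / 2 := by
      by_contra hc
      push Not at hc
      exact h1 hc
    have h3 : ν.real {x | f x < sInf S - ε} ≤ ν.real {x | f x ≤ sInf S - ε} :=
      measureReal_mono (fun x (hx : f x < sInf S - ε) => (hx.le : f x ≤ sInf S - ε))
    linarith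

/-- fourth moments of Lipschitz functions -/
theorem t_M4L (h : S_ALL) : S_M4L := by
  obtain ⟨j0, hj0, hall⟩ := h
  refine ⟨(1 / 4) ^ j0, 13, by positivity, ?_, by norm_num, ?_⟩
  · calc (1 / 4 : ℝ) ^ j0 ≤ (1 / 4) ^ 1 := pow_le_pow_of_le_one (by norm_num) (by norm_num) hj0
      _ = 1 / 4 := by norm_num
  intro k ν B0 r hPB hPL hr hCR f hf hfd
  have hP := hPB.prob
  have hcr := hall k ν B0 r hPB hPL hr hCR
  have hcont : Continuous f := hf.continuous
  have hlip : ∀ x y, |f x - f y| ≤ ‖x - y‖ := by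
    intro x y
    have := Convex.norm_image_sub_le_of_norm_fderiv_le (f := f) (C := 1) (s := Set.univ) (x := y)
      (y := x) (fun z _ => (hf.differentiable (by norm_num)) z) (fun z _ => hfd z) convex_univ
      (mem_univ _) (mem_univ _)
    simpa using this
  set K : ℝ := |f 0| + |B0| with hKdef
  have hK0 : 0 ≤ K := by positivity
  have hK : ∀ᵐ x ∂ν, |f x| ≤ K := by
    filter_upwards [hPB.bdd] with x hx
    have h1 := hlip x 0
    rw [sub_zero] at h1
    have h2 : |f x| ≤ |f x - f 0| + |f 0| := by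
      have := abs_add_le (f x - f 0) (f 0)
      simpa using this
    have h3 := le_abs_self B0
    rw [hKdef]
    linarith
  obtain ⟨m, hm, hm1, hm2⟩ := med ν f hcont.measurable K hK
  -- tails
  have htail : ∀ i : ℕ, ν.real {x | (9 / 8) ^ (i + 1) * r ≤ |f x - m|} ≤ 2 * (1 / 4) ^ i := by
    intro i
    have hgap : (9 / 8 : ℝ) ^ i * r < (9 / 8) ^ (i + 1) * r := by
      rw [pow_succ]
      have : 0 < (9 / 8 : ℝ) ^ i := by positivity
      nlinarith [mul_pos this hr]
    set ρ : ℝ := (9 / 8) ^ i * r with hρ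
    set u : ℝ := (9 / 8) ^ (i + 1) * r with hu
    have hup : ν.real {x | m + u ≤ f x} ≤ (1 / 4) ^ i := by
      by_contra hc
      push Not at hc
      have h1 : (1 / 4 : ℝ) ^ (j0 + i) ≤ ν.real {x | m + u ≤ f x} := by
        refine le_trans ?_ hc.le
        rw [pow_add]
        have a1 : (1 / 4 : ℝ) ^ j0 ≤ 1 := pow_le_one₀ (by norm_num) (by norm_num)
        have a2 : 0 ≤ (1 / 4 : ℝ) ^ i := by positivity
        nlinarith
      have h2 := hcr i _ (measurableSet_le measurable_const hcont.measurable) h1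
      have h3 : Metric.thickening ρ {x | m + u ≤ f x} ⊆ {x | m + ((u - ρ) / 2) < f x} := by
        intro x hx
        rw [Metric.mem_thickening_iff] at hx
        obtain ⟨z, hz, hxz⟩ := hx
        simp only [mem_ofPred_eq] at hz ⊢
        have h4 := hlip x z
        rw [dist_eq_norm] at hxz
        have h5 := (abs_le.mp h4).1
        linarith
      have h4 := measureReal_mono (μ := ν) h3
      have h5 := hm1 ((u - ρ) / 2) (by linarith)
      linarith
    have hdown : ν.real {x | f x ≤ m - u} ≤ (1 / 4) ^ i := by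
      by_contra hc
      push Not at hc
      have h1 : (1 / 4 : ℝ) ^ (j0 + i) ≤ ν.real {x | f x ≤ m - u} := by
        refine le_trans ?_ hc.le
        rw [pow_add]
        have a1 : (1 / 4 : ℝ) ^ j0 ≤ 1 := pow_le_one₀ (by norm_num) (by norm_num)
        have a2 : 0 ≤ (1 / 4 : ℝ) ^ i := by positivity
        nlinarith
      have h2 := hcr i _ (measurableSet_le hcont.measurable measurable_const) h1
      have h3 : Metric.thickening ρ {x | f x ≤ m - u} ⊆ {x | f x < m - ((u - ρ) / 2)} := by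
        intro x hx
        rw [Metric.mem_thickening_iff] at hx
        obtain ⟨z, hz, hxz⟩ := hx
        simp only [mem_ofPred_eq] at hz ⊢
        have h4 := hlip x z
        rw [dist_eq_norm] at hxz
        have h5 := (abs_le.mp h4).2
        linarith
      have h4 := measureReal_mono (μ := ν) h3
      have h5 := hm2 ((u - ρ) / 2) (by linarith)
      linarith
    have hsub : {x | u ≤ |f x - m|} ⊆ {x | m + u ≤ f x} ∪ {x | f x ≤ m - u} := by
      intro x hx
      simp only [mem_ofPred_eq, mem_union] at hx ⊢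
      rcases le_abs.mp hx with h | h
      · left; linarith
      · right; linarith
    calc ν.real {x | u ≤ |f x - m|} ≤ ν.real ({x | m + u ≤ f x} ∪ {x | f x ≤ m - u}) :=
          measureReal_mono hsub
      _ ≤ ν.real {x | m + u ≤ f x} + ν.real {x | f x ≤ m - u} := measureReal_union_le _ _
      _ ≤ 2 * (1 / 4) ^ i := by linarith
  -- a bound for the range
  obtain ⟨n, hn⟩ : ∃ n : ℕ, 2 * K ≤ (9 / 8 : ℝ) ^ (n + 1) * r := by
    obtain ⟨n, hn⟩ := pow_unbounded_of_one_lt (2 * K / r) (show (1 : ℝ) < 9 / 8 by norm_num)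
    refine ⟨n, ?_⟩
    have h1 : 2 * K < (9 / 8 : ℝ) ^ n * r := by rwa [div_lt_iff₀ hr] at hn
    have h2 : (9 / 8 : ℝ) ^ n * r ≤ (9 / 8) ^ (n + 1) * r := by
      rw [pow_succ]
      have : 0 < (9 / 8 : ℝ) ^ n := by positivity
      nlinarith [mul_pos this hr]
    linarith
  refine ⟨m, ?_⟩
  have hmeas : ∀ i : ℕ, MeasurableSet {x | (9 / 8 : ℝ) ^ (i + 1) * r ≤ |f x - m|} := fun i =>
    measurableSet_le measurable_const ((hcont.measurable.sub_const m).abs)
  set G : E k → ℝ := fun x => ((9 / 8) * r) ^ 4 +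
      ∑ i ∈ Finset.range n, ((9 / 8) ^ (i + 2) * r) ^ 4 *
        ({x | (9 / 8 : ℝ) ^ (i + 1) * r ≤ |f x - m|}.indicator (fun _ => (1 : ℝ)) x) with hG
  have hint : ∀ i : ℕ, Integrable ({x | (9 / 8 : ℝ) ^ (i + 1) * r ≤ |f x - m|}.indicator
      (fun _ => (1 : ℝ))) ν := fun i =>
    (integrable_const (1 : ℝ)).indicator (hmeas i)
  have hGi : Integrable G ν := by
    apply (integrable_const _).add
    apply integrable_finsetSum
    intro i _
    exact (hint i).const_mul _
  have hle : ∀ᵐ x ∂ν, (f x - m) ^ 4 ≤ G x := by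
    filter_upwards [hK] with x hx
    have h1 : |f x - m| ≤ (9 / 8) ^ (n + 1) * r := by
      have := abs_sub (f x) m
      linarith
    have h2 := ptw r (|f x - m|) hr (abs_nonneg _) n h1
    have h3 : |f x - m| ^ 4 = (f x - m) ^ 4 := by
      rw [show (4 : ℕ) = 2 * 2 by norm_num, pow_mul, pow_mul, sq_abs]
    rw [h3] at h2
    refine h2.trans (le_of_eq ?_)
    simp only [hG, indicator_apply, mem_ofPred_eq]
  calc ∫ x, (f x - m) ^ 4 ∂ν ≤ ∫ x, G x ∂ν :=
        integral_mono_of_nonneg (Eventually.of_forall fun x => by positivity) hGi hle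
    _ = ((9 / 8) * r) ^ 4 + ∑ i ∈ Finset.range n, ((9 / 8) ^ (i + 2) * r) ^ 4 *
          ν.real {x | (9 / 8 : ℝ) ^ (i + 1) * r ≤ |f x - m|} := by
        rw [hG, integral_add (integrable_const _)
          (integrable_finsetSum _ fun i _ => (hint i).const_mul _),
          integral_finsetSum _ fun i _ => (hint i).const_mul _]
        congr 1
        · simp
        · refine Finset.sum_congr rfl fun i _ => ?_
          rw [integral_const_mul, integral_indicator (hmeas i)]
          simp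
    _ ≤ ((9 / 8) * r) ^ 4 + ∑ i ∈ Finset.range n, ((9 / 8) ^ (i + 2) * r) ^ 4 *
          (2 * (1 / 4) ^ i) := by
        gcongr with i _
        exact htail i
    _ = r ^ 4 * ((9 / 8) ^ 4 + ∑ i ∈ Finset.range n, ((9 / 8 : ℝ) ^ (i + 2)) ^ 4 *
          (2 * (1 / 4) ^ i)) := by
        rw [mul_add, Finset.mul_sum]
        congr 1
        · ring
        · refine Finset.sum_congr rfl fun i _ => ?_
          rw [mul_pow]; ring
    _ ≤ r ^ 4 * 13 := by
        apply mul_le_mul_of_nonneg_left _ (by positivity)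
        have := gsum n
        have h2 : (9 / 8 : ℝ) ^ 4 ≤ 1.602 := by norm_num
        linarith
    _ = 13 * r ^ 4 := by ring

end Pool.Agent.N833.KM
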